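import Pool.Agent.Lib_helper51.TM32.Defs2
import Pool.Agent.Lib_helper54.TM32.PH
import Pool.Agent.Lib_helper45.TM32.U1
import Pool.Agent.Lib_helper33.TM32.E3

/-!
TM32, block FD (helper13): decomposition of `F`.
-/

set_option autoImplicit false

namespace Pool.Agent.TM32

open Zsqrtd

/- stubs of other blocks -/

/-! ### the units -/

theorem FD_mul_epi : eps * (⟨⟨-1, -1⟩, ⟨2, 0⟩⟩ : Z8) = 1 := by
  ext <;> simp <;> rfl

/-- the unit `ε²` -/
def FD_u : Z8ˣ where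
  val := eps ^ 2
  inv := (⟨⟨-1, -1⟩, ⟨2, 0⟩⟩ : Z8) ^ 2
  val_inv := by rw [← mul_pow, FD_mul_epi, one_pow]
  inv_val := by rw [← mul_pow, mul_comm, FD_mul_epi, one_pow]

theorem FD_u_val : (FD_u : Z8) = eps ^ 2 := rfl

theorem FD_Wp {w : Z8} (h : W w) : Wp w := ⟨h.1, by have := h.2; omega⟩

theorem FD_W_one : W 1 := ⟨⟨rfl, rfl⟩, rfl⟩

theorem FD_eps2 : eps ^ 2 = (⟨⟨3, -2⟩, ⟨4, 0⟩⟩ : Z8) := by
  rw [pow_two]; ext <;> simp

theorem FD_epi2 : (⟨⟨-1, -1⟩, ⟨2, 0⟩⟩ : Z8) ^ 2 = (⟨⟨3, 2⟩, ⟨-4, 0⟩⟩ : Z8) := by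
  rw [pow_two]; ext <;> simp

theorem FD_W_u : W (FD_u : Z8) := by
  rw [FD_u_val, FD_eps2]; exact ⟨⟨by decide, by decide⟩, by decide⟩

theorem FD_W_ui : W ((FD_u⁻¹ : Z8ˣ) : Z8) := by
  have h : ((FD_u⁻¹ : Z8ˣ) : Z8) = (⟨⟨-1, -1⟩, ⟨2, 0⟩⟩ : Z8) ^ 2 := rfl
  rw [h, FD_epi2]; exact ⟨⟨by decide, by decide⟩, by decide⟩

theorem FD_W_mul {x y : Z8} (hx : W x) (hy : W y) : W (x * y) :=
  (Wp_mul (FD_Wp hx) (FD_Wp hy)).2.2 (iff_of_true hx hy)

theorem FD_W_pow {x : Z8} (hx : W x) (n : ℕ) : W (x ^ n) := by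
  induction n with
  | zero => rw [pow_zero]; exact FD_W_one
  | succ n ih => rw [pow_succ]; exact FD_W_mul ih hx

theorem FD_W_zpow (j : ℤ) : W ((FD_u ^ j : Z8ˣ) : Z8) := by
  rcases Int.eq_nat_or_neg j with ⟨n, rfl | rfl⟩
  · rw [zpow_natCast, Units.val_pow_eq_pow_val]; exact FD_W_pow FD_W_u n
  · rw [zpow_neg, ← inv_zpow, zpow_natCast, Units.val_pow_eq_pow_val]
    exact FD_W_pow FD_W_ui n

theorem FD_St_u (n : ℕ) {w : Z8} (hw : W w) :
    St (((FD_u ^ n : Z8ˣ) : Z8) * w) = St w := by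
  induction n with
  | zero => rw [pow_zero, Units.val_one, one_mul]
  | succ n ih =>
    have h1 : W (((FD_u ^ n : Z8ˣ) : Z8) * w) := by
      have := FD_W_zpow n
      rw [zpow_natCast] at this
      exact FD_W_mul this hw
    rw [pow_succ', Units.val_mul, mul_assoc, FD_u_val, (St_eps h1).2, ih]

theorem FD_St_z (j : ℤ) {w : Z8} (hw : W w) :
    W (((FD_u ^ j : Z8ˣ) : Z8) * w) ∧ St (((FD_u ^ j : Z8ˣ) : Z8) * w) = St w := by
  have h0 : W (((FD_u ^ j : Z8ˣ) : Z8) * w) := FD_W_mul (FD_W_zpow j) hw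
  refine ⟨h0, ?_⟩
  rcases Int.eq_nat_or_neg j with ⟨n, rfl | rfl⟩
  · rw [zpow_natCast]; exact FD_St_u n hw
  · have h1 := FD_St_u n h0
    rw [← mul_assoc, ← Units.val_mul, ← zpow_natCast, ← zpow_add, add_neg_cancel, zpow_zero,
      Units.val_one, one_mul] at h1
    exact h1.symm

theorem FD_St_zet (a : ℕ) {w : Z8} (hw : W w) :
    W (zet ^ (2 * a) * w) ∧ St (zet ^ (2 * a) * w) = St w := by
  induction a with
  | zero => rw [Nat.mul_zero, pow_zero, one_mul]; exact ⟨hw, rfl⟩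
  | succ a ih =>
    have e : zet ^ (2 * (a + 1)) * w = zet ^ 2 * (zet ^ (2 * a) * w) := by
      rw [← mul_assoc, ← pow_add]; congr 2; ring
    rw [e]
    exact ⟨(St_i ih.1).1, (St_i ih.1).2.trans ih.2⟩

/-- associated elements of `𝒲⁺` -/
theorem FD_assoc {x y : Z8} (hx : Wp x) (hy : Wp y) (h : Associated x y) :
    ∃ (a : ℕ) (j : ℤ), y = zet ^ (2 * a) * (((FD_u ^ j : Z8ˣ) : Z8) * x) := by
  obtain ⟨a, j, h1 | h1⟩ := assoc_Wp hx hy h
  · refine ⟨a, -(j : ℤ), ?_⟩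
    have h2 : eps ^ (2 * j) = ((FD_u ^ j : Z8ˣ) : Z8) := by
      rw [Units.val_pow_eq_pow_val, FD_u_val, ← pow_mul]
    rw [h2] at h1
    have h3 : y = ((FD_u ^ (-(j : ℤ)) : Z8ˣ) : Z8) * (y * ((FD_u ^ j : Z8ˣ) : Z8)) := by
      have e : ((FD_u ^ (-(j : ℤ)) : Z8ˣ) : Z8) * ((FD_u ^ j : Z8ˣ) : Z8) = 1 := by
        rw [← Units.val_mul, ← zpow_natCast, ← zpow_add, neg_add_cancel, zpow_zero, Units.val_one]
      rw [mul_comm y, ← mul_assoc, e, one_mul]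
    rw [h1] at h3
    rw [h3]; ring
  · refine ⟨a, (j : ℤ), ?_⟩
    have h2 : eps ^ (2 * j) = ((FD_u ^ (j : ℤ) : Z8ˣ) : Z8) := by
      rw [zpow_natCast, Units.val_pow_eq_pow_val, FD_u_val, ← pow_mul]
    rw [h1, h2]; ring

theorem FD_clause4 (w w' : Z8) (hw : W w) (hw' : Wp w') (h : Associated w w') :
    W w' ∧ St w = St w' := by
  obtain ⟨a, j, rfl⟩ := FD_assoc (FD_Wp hw) hw' h
  have h1 := FD_St_z j hw
  have h2 := FD_St_zet a h1.1
  exact ⟨h2.1, (h2.2.trans h1.2).symm⟩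

/-! ### the box -/

theorem FD_mem_bx {R : ℕ} {w : Z8} : w ∈ bx R ↔ |w.re.re| ≤ R ∧ |w.re.im| ≤ R ∧ |w.im.re| ≤ R ∧
    |w.im.im| ≤ R := by
  unfold bx
  simp only [Finset.mem_map, Finset.mem_product, Finset.mem_Icc]
  constructor
  · rintro ⟨⟨⟨a, b⟩, ⟨c, d⟩⟩, h, rfl⟩
    simp only [abs_le]
    exact ⟨h.1.1, h.1.2, h.2.1, h.2.2⟩
  · intro h
    simp only [abs_le] at h
    exact ⟨((w.re.re, w.re.im), (w.im.re, w.im.im)), ⟨⟨h.1, h.2.1⟩, h.2.2.1, h.2.2.2⟩, rfl⟩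

theorem FD_bx {n : ℕ} (hn : 1 ≤ n) {w : Z8} (h : gg w ^ 2 ≤ 1200 * (n : ℤ)) : w ∈ bx (20 * n) := by
  have hn' : (1 : ℤ) ≤ n := by exact_mod_cast hn
  have hg := gg_nonneg w
  have key : ∀ c : ℤ, c ^ 2 ≤ 2 * gg w → |c| ≤ ((20 * n : ℕ) : ℤ) := by
    intro c hc
    have h0 : (0 : ℤ) ≤ ((20 * n : ℕ) : ℤ) := by positivity
    refine abs_le_of_sq_le_sq ?_ h0
    have h1 : (c ^ 2) ^ 2 ≤ (((20 * n : ℕ) : ℤ) ^ 2) ^ 2 := by
      have h2 : (c ^ 2) ^ 2 ≤ (2 * gg w) ^ 2 := pow_le_pow_left₀ (sq_nonneg c) hc 2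
      have h3 : (n : ℤ) ≤ n ^ 4 := by
        have : (1 : ℤ) ≤ n ^ 3 := one_le_pow₀ hn'
        nlinarith
      push_cast
      nlinarith
    exact le_of_sq_le_sq h1 (by positivity)
  have e : gg w = (w.re.re - w.im.im) ^ 2 + (w.im.re + w.re.im) ^ 2 + w.im.im ^ 2 +
    w.re.im ^ 2 := rfl
  rw [FD_mem_bx]
  refine ⟨key _ ?_, key _ ?_, key _ ?_, key _ ?_⟩
  · rw [e]; nlinarith [sq_nonneg (w.re.re - 2 * w.im.im), sq_nonneg (w.im.re + w.re.im),
      sq_nonneg w.re.im]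
  · rw [e]; nlinarith [sq_nonneg (w.re.re - w.im.im), sq_nonneg (w.im.re + w.re.im),
      sq_nonneg w.im.im, sq_nonneg w.re.im]
  · rw [e]; nlinarith [sq_nonneg (w.re.re - w.im.im), sq_nonneg (w.im.re + 2 * w.re.im),
      sq_nonneg w.im.im, sq_nonneg w.re.im]
  · rw [e]; nlinarith [sq_nonneg (w.re.re - w.im.im), sq_nonneg (w.im.re + w.re.im),
      sq_nonneg w.im.im, sq_nonneg w.re.im]

/-! ### injectivity -/

theorem FD_zpow_ne {k : ℤ} (hk : k ≠ 0) : FD_u ^ k ≠ 1 := by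
  intro h
  obtain ⟨h1, h2⟩ := Ph_sum (w := 1) one_ne_zero FD_u FD_u_val
  have h3 : (Function.support (fun j : ℤ => Ph (((FD_u ^ j : Z8ˣ) : Z8) * 1))).Nonempty := by
    by_contra h3
    rw [Set.not_nonempty_iff_eq_empty, Function.support_eq_empty_iff] at h3
    have h4 : ∑ᶠ j : ℤ, Ph (((FD_u ^ j : Z8ˣ) : Z8) * 1) = ∑ᶠ j : ℤ, (0 : ℝ) :=
      finsum_congr fun j => congrFun h3 j
    rw [h4, finsum_zero] at h2
    exact zero_ne_one h2
  obtain ⟨j, hj⟩ := h3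
  have h4 : Function.Injective (fun n : ℤ => j + k * n) := by
    intro a b hab
    have : k * a = k * b := by simpa using hab
    exact mul_left_cancel₀ hk this
  refine Set.infinite_of_injective_forall_mem h4 (fun n => ?_) h1
  have e : FD_u ^ (j + k * n) = FD_u ^ j := by
    rw [zpow_add, zpow_mul, h, one_zpow, mul_one]
  show Ph (((FD_u ^ (j + k * n) : Z8ˣ) : Z8) * 1) ≠ 0
  rw [e]; exact hj

theorem FD_zet2 : zet ^ 2 = (⟨⟨1, 0⟩, ⟨0, 1⟩⟩ : Z8) := by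
  rw [pow_two]; ext <;> simp

theorem FD_zet4 : zet ^ 4 = (-1 : Z8) := by
  have : zet ^ 4 = zet ^ 2 * zet ^ 2 := by rw [← pow_add]
  rw [this, FD_zet2]; ext <;> simp <;> rfl

theorem FD_zet8 : zet ^ 8 = (1 : Z8) := by
  have : zet ^ 8 = zet ^ 4 * zet ^ 4 := by rw [← pow_add]
  rw [this, FD_zet4]; ring

theorem FD_zet6 : zet ^ 6 = (⟨⟨-1, 0⟩, ⟨0, -1⟩⟩ : Z8) := by
  have : zet ^ 6 = zet ^ 4 * zet ^ 2 := by rw [← pow_add]
  rw [this, FD_zet4, FD_zet2]; ext <;> simp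

theorem FD_zet_inj {a b : ℕ} (ha : a < 4) (hb : b < 4)
    (h : zet ^ (2 * a) = zet ^ (2 * b)) : a = b := by
  have h2 := FD_zet2
  have h4 := FD_zet4
  have h6 := FD_zet6
  have key : ∀ c < 4, (zet ^ (2 * c)).re.re + 10 * (zet ^ (2 * c)).im.im =
      if c = 0 then 1 else if c = 1 then 11 else if c = 2 then -1 else -11 := by
    intro c hc
    interval_cases c
    · rw [Nat.mul_zero, pow_zero]; rfl
    · simp only [Nat.mul_one]; rw [h2]; simp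
    · show (zet ^ 4).re.re + 10 * (zet ^ 4).im.im = _
      rw [h4]; rfl
    · show (zet ^ 6).re.re + 10 * (zet ^ 6).im.im = _
      rw [h6]; simp
  have e1 := key a ha
  have e2 := key b hb
  rw [h, e2] at e1
  interval_cases a <;> interval_cases b <;> simp at e1 <;> rfl

theorem FD_inj {r : Z8} (hr : r ≠ 0) {a b : ℕ} (ha : a < 4) (hb : b < 4) {j k : ℤ}
    (h : zet ^ (2 * a) * (((FD_u ^ j : Z8ˣ) : Z8) * r) =
      zet ^ (2 * b) * (((FD_u ^ k : Z8ˣ) : Z8) * r)) : a = b ∧ j = k := by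
  have h1 : zet ^ (2 * a) * ((FD_u ^ j : Z8ˣ) : Z8) =
      zet ^ (2 * b) * ((FD_u ^ k : Z8ˣ) : Z8) := by
    rw [← mul_assoc, ← mul_assoc] at h
    exact mul_right_cancel₀ hr h
  have hp : ∀ c : ℕ, (zet ^ (2 * c)) ^ 4 = (1 : Z8) := by
    intro c
    rw [← pow_mul, show 2 * c * 4 = 8 * c by ring, pow_mul, FD_zet8, one_pow]
  have hjk : j = k := by
    have h2 := congrArg (fun z => z ^ 4) h1
    simp only [mul_pow, hp, one_mul] at h2
    have h3 : (FD_u ^ j) ^ 4 = (FD_u ^ k) ^ 4 := by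
      apply Units.ext
      rw [Units.val_pow_eq_pow_val, Units.val_pow_eq_pow_val]
      exact h2
    by_contra hne
    refine FD_zpow_ne (k := (j - k) * 4) (by
      have : j - k ≠ 0 := sub_ne_zero.2 hne
      omega) ?_
    rw [zpow_mul, zpow_sub, mul_zpow, inv_zpow]
    rw [show ((4 : ℤ)) = ((4 : ℕ) : ℤ) by norm_num, zpow_natCast, zpow_natCast, h3,
      mul_inv_cancel]
  refine ⟨FD_zet_inj ha hb ?_, hjk⟩
  rw [hjk] at h1
  exact mul_right_cancel₀ (Units.ne_zero _) h1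

/-! ### the sum over one class -/

theorem FD_Ph_zet (a : ℕ) (w : Z8) : Ph (zet ^ (2 * a) * w) = Ph w := by
  induction a with
  | zero => rw [Nat.mul_zero, pow_zero, one_mul]
  | succ a ih =>
    have e : zet ^ (2 * (a + 1)) * w = zet ^ 2 * (zet ^ (2 * a) * w) := by
      rw [← mul_assoc, ← pow_add]; congr 2; ring
    rw [e, Ph_i, ih]

theorem FD_class {n : ℕ} (hn : 1 ≤ n) {r : Z8} (hr : W r) (hN : N8 r = n) (B : Finset Z8)
    (hB : ∀ w, w ∈ B ↔ w ∈ bx (20 * n) ∧ W w ∧ Associated w r) : ∑ w ∈ B, Ph w = 4 := by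
  classical
  have hr0 : r ≠ 0 := by
    rintro rfl
    have : N8 0 = 0 := N8_eq_zero.2 rfl
    rw [this] at hN
    have : n = 0 := by exact_mod_cast hN.symm
    omega
  obtain ⟨hfin, hsum⟩ := Ph_sum hr0 FD_u FD_u_val
  set J := hfin.toFinset with hJ
  have hs : ∑ j ∈ J, Ph (((FD_u ^ j : Z8ˣ) : Z8) * r) = 1 := by
    rw [← hsum]
    exact (finsum_eq_sum _ hfin).symm
  set φ : ℕ × ℤ → Z8 := fun p => zet ^ (2 * p.1) * (((FD_u ^ p.2 : Z8ˣ) : Z8) * r) with hφ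
  have hinj : Set.InjOn φ ((Finset.range 4 ×ˢ J : Finset (ℕ × ℤ)) : Set (ℕ × ℤ)) := by
    rintro ⟨a, j⟩ h1 ⟨b, k⟩ h2 h
    have h1' := (Finset.mem_product.1 (Finset.mem_coe.1 h1)).1
    have h2' := (Finset.mem_product.1 (Finset.mem_coe.1 h2)).1
    have := FD_inj hr0 (Finset.mem_range.1 h1') (Finset.mem_range.1 h2') h
    exact Prod.ext this.1 this.2
  have hT : ∑ w ∈ (Finset.range 4 ×ˢ J).image φ, Ph w = 4 := by
    rw [Finset.sum_image hinj, Finset.sum_product]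
    have : ∀ a ∈ Finset.range 4, ∑ j ∈ J, Ph (φ (a, j)) = 1 := by
      intro a _
      rw [← hs]
      exact Finset.sum_congr rfl fun j _ => FD_Ph_zet a _
    rw [Finset.sum_congr rfl this]
    simp
  rw [← hT]
  symm
  refine Finset.sum_subset ?_ ?_
  · intro w hw
    obtain ⟨⟨a, j⟩, hp, rfl⟩ := Finset.mem_image.1 hw
    have hj : j ∈ J := (Finset.mem_product.1 hp).2
    have hj' : Ph (((FD_u ^ j : Z8ˣ) : Z8) * r) ≠ 0 := (Set.Finite.mem_toFinset hfin).1 hj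
    have hPh : Ph (φ (a, j)) ≠ 0 := by
      show Ph (zet ^ (2 * a) * (((FD_u ^ j : Z8ˣ) : Z8) * r)) ≠ 0
      rw [FD_Ph_zet]; exact hj'
    have hWφ : W (φ (a, j)) := (FD_St_zet a (FD_St_z j hr).1).1
    have hass : Associated (φ (a, j)) r := by
      have hz : IsUnit (zet ^ (2 * a) : Z8) := by
        refine (IsUnit.pow _ ?_)
        exact IsUnit.of_pow_eq_one FD_zet8 (by norm_num)
      have : IsUnit (zet ^ (2 * a) * ((FD_u ^ j : Z8ˣ) : Z8)) := hz.mul (Units.isUnit _)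
      show Associated (zet ^ (2 * a) * (((FD_u ^ j : Z8ˣ) : Z8) * r)) r
      rw [← mul_assoc]
      exact (associated_unit_mul_left r _ this)
    refine (hB _).2 ⟨FD_bx hn ?_, hWφ, hass⟩
    have := Ph_support hPh
    rwa [N8_assoc hass, hN] at this
  · intro w hw hw'
    obtain ⟨-, h1, h2⟩ := (hB w).1 hw
    by_contra hne
    apply hw'
    obtain ⟨a, j, rfl⟩ := FD_assoc (FD_Wp hr) (FD_Wp h1) h2.symm
    have e : zet ^ (2 * (a % 4)) = zet ^ (2 * a) := by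
      have e8 : (zet : Z8) ^ (8 * (a / 4)) = 1 := by rw [pow_mul, FD_zet8, one_pow]
      have ea : 2 * a = 8 * (a / 4) + 2 * (a % 4) := by omega
      rw [ea, pow_add, e8, one_mul]
    refine Finset.mem_image.2 ⟨(a % 4, j), Finset.mem_product.2
      ⟨Finset.mem_range.2 (Nat.mod_lt _ (by norm_num)), ?_⟩, ?_⟩
    · rw [hJ, Set.Finite.mem_toFinset]
      show Ph (((FD_u ^ j : Z8ˣ) : Z8) * r) ≠ 0
      rw [← FD_Ph_zet a]
      exact hne
    · show zet ^ (2 * (a % 4)) * _ = _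
      rw [e]

/-! ### the main statement -/

open Classical in
/-- representatives of the classes of `𝒲⁺` -/
theorem FD : ∃ Rp : ℕ → Finset Z8,
    (∀ n : ℕ, ∀ w ∈ Rp n, Wp w ∧ N8 w = n ∧ gg w ^ 2 ≤ 9 * (n : ℤ)) ∧
    (∀ n : ℕ, ∀ w ∈ Rp n, ∀ w' ∈ Rp n, Associated w w' → w = w') ∧
    (∀ n : ℕ, 1 ≤ n → ∀ w, Wp w → N8 w = n → ∃ w' ∈ Rp n, Associated w w') ∧
    (∀ w w', W w → Wp w' → Associated w w' → W w' ∧ St w = St w') ∧
    ∀ n : ℕ, 1 ≤ n → F n = 4 * ∑ w ∈ (Rp n).filter W, (St w : ℝ) := by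
  have hbal : ∀ n : ℕ, 1 ≤ n → ∀ w, Wp w → N8 w = n →
      ∃ w', (w' ∈ bx (20 * n) ∧ Wp w' ∧ N8 w' = n ∧ gg w' ^ 2 ≤ 9 * (n : ℤ)) ∧
        Associated w' w := by
    intro n hn w hw hN
    have hw0 : w ≠ 0 := by
      rintro rfl
      have : N8 0 = 0 := N8_eq_zero.2 rfl
      rw [this] at hN
      have : n = 0 := by exact_mod_cast hN.symm
      omega
    obtain ⟨j, w', h1, h2⟩ := balanced hw0
    have he : eps ^ (2 * j) = ((FD_u ^ (j : ℤ) : Z8ˣ) : Z8) := by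
      rw [zpow_natCast, Units.val_pow_eq_pow_val, FD_u_val, ← pow_mul]
    have hex : ∃ k : ℤ, w' = ((FD_u ^ k : Z8ˣ) : Z8) * w := by
      rcases h1 with h1 | h1
      · exact ⟨j, by rw [h1, he]⟩
      · refine ⟨-j, ?_⟩
        rw [h1, he, ← mul_assoc, ← Units.val_mul, ← zpow_add, neg_add_cancel, zpow_zero,
          Units.val_one, one_mul]
    obtain ⟨k, hk⟩ := hex
    have hass : Associated w' w := by
      rw [hk]
      exact associated_unit_mul_left w _ (Units.isUnit _)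
    have hN' : N8 w' = n := by rw [N8_assoc hass, hN]
    have hWp : Wp w' := by
      rw [hk]
      exact (Wp_mul (FD_Wp (FD_W_zpow k)) hw).1
    rw [hN'] at h2
    exact ⟨w', ⟨FD_bx hn (by
      have : (0 : ℤ) ≤ n := by positivity
      linarith), hWp, hN', h2⟩, hass⟩
  set Bal : ℕ → Finset Z8 := fun n => (bx (20 * n)).filter (fun w => Wp w ∧ N8 w = n ∧
    gg w ^ 2 ≤ 9 * (n : ℤ)) with hBal
  set inv : ℕ → Associates Z8 → Z8 := fun n => Function.invFunOn Associates.mk (Bal n : Set Z8)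
    with hinv
  have hmem : ∀ n b, b ∈ (Bal n).image Associates.mk → inv n b ∈ Bal n ∧
      Associates.mk (inv n b) = b := by
    intro n b hb
    obtain ⟨w, hw, hwb⟩ := Finset.mem_image.1 hb
    have hex : ∃ a ∈ (Bal n : Set Z8), Associates.mk a = b := ⟨w, hw, hwb⟩
    exact ⟨Function.invFunOn_mem hex, Function.invFunOn_eq hex⟩
  set Rp : ℕ → Finset Z8 := fun n => ((Bal n).image Associates.mk).image (inv n) with hRp
  have hR1 : ∀ n : ℕ, ∀ w ∈ Rp n, w ∈ Bal n ∧ inv n (Associates.mk w) = w := by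
    intro n w hw
    obtain ⟨b, hb, rfl⟩ := Finset.mem_image.1 hw
    obtain ⟨h1, h2⟩ := hmem n b hb
    exact ⟨h1, by rw [h2]⟩
  have hR2 : ∀ n : ℕ, ∀ w ∈ Rp n, Wp w ∧ N8 w = n ∧ gg w ^ 2 ≤ 9 * (n : ℤ) := fun n w hw =>
    (Finset.mem_filter.1 (hR1 n w hw).1).2
  have hR3 : ∀ n : ℕ, 1 ≤ n → ∀ w, Wp w → N8 w = n →
      inv n (Associates.mk w) ∈ Rp n ∧ Associated w (inv n (Associates.mk w)) := by
    intro n hn w hw hN
    obtain ⟨w', h1, h2⟩ := hbal n hn w hw hN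
    have h3 : Associates.mk w ∈ (Bal n).image Associates.mk :=
      Finset.mem_image.2 ⟨w', Finset.mem_filter.2 h1, Associates.mk_eq_mk_iff_associated.2 h2⟩
    exact ⟨Finset.mem_image.2 ⟨_, h3, rfl⟩,
      Associates.mk_eq_mk_iff_associated.1 (hmem n _ h3).2.symm⟩
  refine ⟨Rp, hR2, ?_, ?_, FD_clause4, ?_⟩
  · intro n w hw w' hw' h
    rw [← (hR1 n w hw).2, ← (hR1 n w' hw').2, Associates.mk_eq_mk_iff_associated.2 h]
  · intro n hn w hw hN
    exact ⟨_, hR3 n hn w hw hN⟩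
  · intro n hn
    unfold F
    have hmaps : ∀ w ∈ (bx (20 * n)).filter (fun w => W w ∧ N8 w = n),
        inv n (Associates.mk w) ∈ (Rp n).filter W := by
      intro w hw
      obtain ⟨-, h1, h2⟩ := Finset.mem_filter.1 hw
      obtain ⟨h3, h4⟩ := hR3 n hn w (FD_Wp h1) h2
      exact Finset.mem_filter.2 ⟨h3, (FD_clause4 _ _ h1 (hR2 n _ h3).1 h4).1⟩
    rw [← Finset.sum_fiberwise_of_maps_to hmaps, Finset.mul_sum]
    refine Finset.sum_congr rfl fun r hr => ?_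
    obtain ⟨hr1, hr2⟩ := Finset.mem_filter.1 hr
    have hB : ∀ w, w ∈ ((bx (20 * n)).filter (fun w => W w ∧ N8 w = n)).filter
        (fun w => inv n (Associates.mk w) = r) ↔ w ∈ bx (20 * n) ∧ W w ∧ Associated w r := by
      intro w
      rw [Finset.mem_filter, Finset.mem_filter]
      constructor
      · rintro ⟨⟨h1, h2, h3⟩, h4⟩
        refine ⟨h1, h2, ?_⟩
        rw [← h4]
        exact (hR3 n hn w (FD_Wp h2) h3).2
      · rintro ⟨h1, h2, h3⟩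
        refine ⟨⟨h1, h2, by rw [N8_assoc h3]; exact (hR2 n r hr1).2.1⟩, ?_⟩
        rw [Associates.mk_eq_mk_iff_associated.2 h3]
        exact (hR1 n r hr1).2
    rw [← FD_class hn hr2 (hR2 n r hr1).2.1 _ hB, Finset.sum_mul]
    refine Finset.sum_congr rfl fun w hw => ?_
    obtain ⟨-, h1, h2⟩ := (hB w).1 hw
    rw [(FD_clause4 w r h1 (FD_Wp hr2) h2).2]

end Pool.Agent.TM32
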