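import Pool.Agent.Lib_helper51.TM32.NDefs
import Pool.Agent.Lib_helper67.TM32.N2a
import Pool.Agent.Lib_helper23.TM32.N2b
import Pool.Agent.Lib_helper45.TM32.N3
import Pool.Agent.Lib_helper31.TM32.N4a
import Pool.Agent.Lib_helper94.TM32.N4b
import Pool.Agent.Lib_helper87.TM32.N5
import Pool.Agent.Lib_helper90.PNT.WienerIkehara

/-!
TM32, block N6: the mean value of `(aa + bb) Λ` is zero (Wiener-Ikehara).
Uses `aa_mul`, `bb_mul`, `aa_le`, `bb_le`, `rr_conv`, `ab_real`, `cm_logderiv`, `rr_psum`,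
`cont_of_psum`, `G_ne_zero`.
-/

set_option autoImplicit false

namespace Pool.Agent.TM32

open Zsqrtd Filter Topology ArithmeticFunction

theorem N6_aa_zero : aa 0 = 0 := by unfold aa; rw [if_pos rfl]
theorem N6_bb_zero : bb 0 = 0 := by unfold bb; rw [if_pos rfl]
theorem N6_aa_one : aa 1 = 1 := by unfold aa; simp
theorem N6_bb_one : bb 1 = 1 := by unfold bb; simp

theorem N6_rr (n : ℕ) (hn : n ≠ 0) : rr n = LSeries.convolution aa bb n := by
  rw [rr_conv hn, LSeries.convolution_def]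
  exact (Nat.sum_divisorsAntidiagonal (n := n) (fun i j => aa i * bb j)).symm

theorem N6_abs {a : ℕ → ℂ} (ha : ∀ n, ‖a n‖ ≤ 1) {s : ℂ} (hs : 1 < s.re) :
    LSeries.abscissaOfAbsConv a < s.re := by
  have h1 : LSeries.abscissaOfAbsConv a ≤ 1 :=
    LSeries.abscissaOfAbsConv_le_of_le_const ⟨1, fun n _ => ha n⟩
  refine lt_of_le_of_lt h1 ?_
  exact_mod_cast hs

theorem N6_summable_rr {s : ℂ} (hs : 1 < s.re) : LSeriesSummable rr s := by
  have ha := (cm_logderiv aa N6_aa_zero N6_aa_one (fun m n hm hn => aa_mul hm hn) aa_le hs).1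
  have hb := (cm_logderiv bb N6_bb_zero N6_bb_one (fun m n hm hn => bb_mul hm hn) bb_le hs).1
  exact (LSeriesSummable_congr s (fun {n} hn => N6_rr n hn)).2 (ha.convolution hb)

theorem N6_LSeries_rr {s : ℂ} (hs : 1 < s.re) : LSeries rr s = LSeries aa s * LSeries bb s := by
  have ha := (cm_logderiv aa N6_aa_zero N6_aa_one (fun m n hm hn => aa_mul hm hn) aa_le hs).1
  have hb := (cm_logderiv bb N6_bb_zero N6_bb_one (fun m n hm hn => bb_mul hm hn) bb_le hs).1
  rw [LSeries_congr (fun {n} hn => N6_rr n hn) s]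
  exact LSeries_convolution' ha hb

/-- the coefficients: `(2 + Re (aa + bb)) Λ` -/
noncomputable def N6_f (n : ℕ) : ℝ := (2 + (aa n + bb n).re) * vonMangoldt n

theorem N6_cases (n : ℕ) : vonMangoldt n = 0 ∨ ((aa n + bb n).im = 0 ∧ |(aa n + bb n).re| ≤ 2) := by
  by_cases h : IsPrimePow n
  · exact Or.inr (ab_real n h)
  · left
    by_contra h2
    exact h (vonMangoldt_ne_zero_iff.1 h2)

theorem N6_f_nonneg (n : ℕ) : 0 ≤ N6_f n := by
  unfold N6_f
  rcases N6_cases n with h | ⟨_, h⟩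
  · rw [h, mul_zero]
  · refine mul_nonneg ?_ vonMangoldt_nonneg
    have := (abs_le.1 h).1
    linarith

theorem N6_f_le (n : ℕ) : N6_f n ≤ 4 * vonMangoldt n := by
  unfold N6_f
  rcases N6_cases n with h | ⟨_, h⟩
  · rw [h, mul_zero, mul_zero]
  · refine mul_le_mul_of_nonneg_right ?_ vonMangoldt_nonneg
    have := (abs_le.1 h).2
    linarith

theorem N6_f_complex (n : ℕ) : ((N6_f n : ℝ) : ℂ) =
    2 * (vonMangoldt n : ℂ) + (aa n * (vonMangoldt n : ℂ) + bb n * (vonMangoldt n : ℂ)) := by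
  unfold N6_f
  rcases N6_cases n with h | ⟨h, _⟩
  · rw [h]; simp
  · have h1 : (((aa n + bb n).re : ℝ) : ℂ) = aa n + bb n := by
      apply Complex.ext
      · simp
      · rw [Complex.ofReal_im]; exact h.symm
    rw [Complex.ofReal_mul, Complex.ofReal_add, h1]
    push_cast
    ring

theorem N6_LSeries_f {s : ℂ} (hs : 1 < s.re) :
    LSeries (fun n => ((N6_f n : ℝ) : ℂ)) s = 2 * LSeries (fun n => (vonMangoldt n : ℂ)) s +
      (LSeries (fun n => aa n * (vonMangoldt n : ℂ)) s +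
        LSeries (fun n => bb n * (vonMangoldt n : ℂ)) s) := by
  have ha := (cm_logderiv aa N6_aa_zero N6_aa_one (fun m n hm hn => aa_mul hm hn) aa_le hs).2.2.1
  have hb := (cm_logderiv bb N6_bb_zero N6_bb_one (fun m n hm hn => bb_mul hm hn) bb_le hs).2.2.1
  have hL : LSeriesSummable (fun n => (vonMangoldt n : ℂ)) s := LSeriesSummable_vonMangoldt hs
  have e : (fun n => ((N6_f n : ℝ) : ℂ)) = ((fun n => (vonMangoldt n : ℂ)) +
      (fun n => (vonMangoldt n : ℂ))) + ((fun n => aa n * (vonMangoldt n : ℂ)) +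
      (fun n => bb n * (vonMangoldt n : ℂ))) := by
    funext n
    simp only [Pi.add_apply]
    rw [N6_f_complex]
    ring
  rw [e, LSeries_add (hL.add hL) (ha.add hb), LSeries_add hL hL, LSeries_add ha hb]
  ring

theorem N6_logderiv {G : ℂ → ℂ} (hGe : ∀ s, 1 < s.re → LSeries rr s = G s) {s : ℂ}
    (hs : 1 < s.re) : G s ≠ 0 ∧ -(deriv G s / G s) =
      LSeries (fun n => aa n * (vonMangoldt n : ℂ)) s +
        LSeries (fun n => bb n * (vonMangoldt n : ℂ)) s := by
  obtain ⟨_, ha2, _, ha4⟩ :=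
    cm_logderiv aa N6_aa_zero N6_aa_one (fun m n hm hn => aa_mul hm hn) aa_le hs
  obtain ⟨_, hb2, _, hb4⟩ :=
    cm_logderiv bb N6_bb_zero N6_bb_one (fun m n hm hn => bb_mul hm hn) bb_le hs
  have hopen : {z : ℂ | 1 < z.re} ∈ 𝓝 s :=
    (isOpen_lt continuous_const Complex.continuous_re).mem_nhds hs
  have hEq : G =ᶠ[𝓝 s] fun z => LSeries aa z * LSeries bb z := by
    filter_upwards [hopen] with z hz
    rw [← hGe z hz, N6_LSeries_rr hz]
  have hGs : G s = LSeries aa s * LSeries bb s := hEq.eq_of_nhds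
  have hda : DifferentiableAt ℂ (LSeries aa) s :=
    (LSeries_hasDerivAt (N6_abs aa_le hs)).differentiableAt
  have hdb : DifferentiableAt ℂ (LSeries bb) s :=
    (LSeries_hasDerivAt (N6_abs bb_le hs)).differentiableAt
  have hder : deriv G s = deriv (LSeries aa) s * LSeries bb s +
      LSeries aa s * deriv (LSeries bb) s := by
    rw [hEq.deriv_eq]
    exact (hda.hasDerivAt.mul hdb.hasDerivAt).deriv
  refine ⟨by rw [hGs]; exact mul_ne_zero ha2 hb2, ?_⟩
  rw [hder, hGs, ha4, hb4]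
  field_simp
  ring

theorem N6_G_ne {G : ℂ → ℂ} (hG : DifferentiableOn ℂ G {s | 1 / 2 < s.re})
    (hGe : ∀ s, 1 < s.re → LSeries rr s = G s) {s : ℂ} (hs : 1 ≤ s.re) : G s ≠ 0 := by
  rcases hs.eq_or_lt with h | h
  · have h1 := G_ne_zero G hG hGe s.im
    have h2 : (1 : ℂ) + s.im * Complex.I = s := by
      apply Complex.ext
      · simp [h]
      · simp
    rwa [h2] at h1
  · exact (N6_logderiv hGe h).1

theorem psi_sum : Tendsto (fun x : ℝ => (∑ k ∈ Finset.Icc 1 ⌊x⌋₊,
    (aa k + bb k).re * vonMangoldt k) / x) atTop (𝓝 0) := by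
  obtain ⟨G, hG, hGe⟩ := cont_of_psum rr 2 rr_psum (fun s hs => N6_summable_rr hs)
  obtain ⟨C, hC⟩ := Pool.Agent.Lib_helper90.PNT.vonMangoldt_chebyshev
  have hopen : IsOpen {s : ℂ | 1 / 2 < s.re} := isOpen_lt continuous_const Complex.continuous_re
  have hsub : {s : ℂ | 1 ≤ s.re} ⊆ {s : ℂ | 1 / 2 < s.re} := by
    intro s hs
    have h1 : (1 : ℝ) ≤ s.re := hs
    show (1 / 2 : ℝ) < s.re
    linarith
  have hF : ContinuousOn (fun s => 2 * vonMangoldt.LFunctionResidueClassAux (1 : ZMod 1) s +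
      -(deriv G s / G s)) {s | 1 ≤ s.re} := by
    refine ContinuousOn.add (continuousOn_const.mul
      (vonMangoldt.continuousOn_LFunctionResidueClassAux (1 : ZMod 1))) (ContinuousOn.neg ?_)
    refine ContinuousOn.div ?_ (hG.continuousOn.mono hsub) (fun s hs => N6_G_ne hG hGe hs)
    exact (hG.deriv hopen).continuousOn.mono hsub
  have key := Pool.Agent.Lib_helper90.PNT.wiener_ikehara (f := N6_f) (C := 4 * C) (A := 2)
    (F := fun s => 2 * vonMangoldt.LFunctionResidueClassAux (1 : ZMod 1) s +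
      -(deriv G s / G s)) N6_f_nonneg
    (fun n => by
      calc ∑ k ∈ Finset.Icc 1 n, N6_f k ≤ ∑ k ∈ Finset.Icc 1 n, 4 * vonMangoldt k :=
            Finset.sum_le_sum fun k _ => N6_f_le k
        _ = 4 * ∑ k ∈ Finset.Icc 1 n, vonMangoldt k := by rw [Finset.mul_sum]
        _ ≤ 4 * (C * n) := mul_le_mul_of_nonneg_left (hC n) (by norm_num)
        _ = 4 * C * n := by ring) hF
    (fun s hs => by
      show 2 * vonMangoldt.LFunctionResidueClassAux (1 : ZMod 1) s + -(deriv G s / G s) = _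
      rw [(N6_logderiv hGe hs).2, N6_LSeries_f hs,
        vonMangoldt.eqOn_LFunctionResidueClassAux (q := 1) (a := 1) isUnit_one hs]
      have h1 : ∀ k, vonMangoldt.residueClass (1 : ZMod 1) k = vonMangoldt k := by
        intro k
        unfold vonMangoldt.residueClass
        apply Set.indicator_of_mem
        show ((k : ZMod 1)) = 1
        exact Subsingleton.elim _ _
      simp only [h1, Nat.totient_one, Nat.cast_one, inv_one]
      push_cast
      ring)
  have hpsi := Pool.Agent.Lib_helper90.PNT.tendsto_psi_div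
  have h3 := key.sub (hpsi.const_mul 2)
  have h4 : (2 : ℝ) - 2 * 1 = 0 := by norm_num
  rw [h4] at h3
  refine h3.congr fun x => ?_
  have h5 : Chebyshev.psi x = ∑ k ∈ Finset.Icc 1 ⌊x⌋₊, vonMangoldt k := rfl
  rw [h5]
  unfold N6_f
  rw [mul_div_assoc', ← sub_div, Finset.mul_sum, ← Finset.sum_sub_distrib]
  congr 1
  refine Finset.sum_congr rfl fun k _ => ?_
  ring

end Pool.Agent.TM32
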